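import Pool.Agent.H5.W.AllX

/-!
The number of distinct values of `W(n) = sum of n / p^a over the prime powers p^a exactly
dividing n`, for `1 ≤ n ≤ x`, is at least `c x` with an absolute constant `c > 0`.
-/

namespace Pool.Agent.Results.MP_559555_nt.LinearlyManyValues

/-- There is `c > 0` such that for every `x ≥ 1` the function `W` takes at least `c x` distinct
values on the integers `1 ≤ n ≤ x`. -/
theorem result : ∃ c : ℝ, 0 < c ∧ ∀ x : ℕ, 1 ≤ x →
    c * (x : ℝ) ≤ (((Finset.Icc 1 x).image
      (fun n : ℕ => ∑ p ∈ n.primeFactors, n / p ^ (n.factorization p))).card : ℝ) :=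
  Pool.Agent.H5.W.lower_all

end Pool.Agent.Results.MP_559555_nt.LinearlyManyValues
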